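import Pool.Agent.Lib.MP_395e41_an.Main

/-!
# The practical stabilization entropy can be smaller than the stabilization entropy

For every `KL`-function `ζ` that does not decay faster than exponentially, and for every `L > 0`,
there is a scalar control system `x' = g x + u` with `g` Lipschitz and bounded, and with a compact
control interval, that is stabilizable for `ζ`, `Γ = [-1,1]`, `Λ = {0}`, whose practical
stabilization entropy is `0` and whose stabilization entropy is at least `L`.

The drift `g` expands distances at rate `L` near the origin except in tiny windows that accumulate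
at the origin, where it contracts them at rate `L`.
-/

set_option autoImplicit false

open Filter Topology Pool.Agent.StabEntropy

namespace Pool.Agent.Results.MP_395e41_an.EntropyGap

/-- The exponential function `r * exp (-(l * t))` satisfies the hypotheses of `result`. -/
theorem example_exp (l : ℝ) (hl : 0 < l) : IsKL (fun r t => r * Real.exp (-(l * t))) where
  continuousOn := by
    apply Continuous.continuousOn
    fun_prop
  zero s _ := by simp
  strictMonoOn s _ := fun a _ b _ hab => mul_lt_mul_of_pos_right hab (Real.exp_pos _)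
  strictAntiOn r hr := fun a _ b _ hab => by
    refine mul_lt_mul_of_pos_left ?_ hr
    rw [Real.exp_lt_exp]
    have := mul_lt_mul_of_pos_left hab hl
    linarith
  tendsto r _ := by
    have h : Tendsto (fun s : ℝ => r * Real.exp (-(l * s))) atTop (𝓝 (r * 0)) := by
      refine Tendsto.const_mul _ ?_
      exact Real.tendsto_exp_neg_atTop_nhds_zero.comp (tendsto_id.const_mul_atTop hl)
    simpa using h

/-- The slowly decaying function `r / (1 + t)` satisfies the hypotheses of `result`. -/
theorem example_slow : IsKL (fun r t => r / (1 + t)) ∧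
    ∀ r ∈ Set.Icc (0 : ℝ) 1, ∀ t, 0 ≤ t → r * Real.exp (-(1 * t)) ≤ r / (1 + t) := by
  refine ⟨⟨?_, ?_, ?_, ?_, ?_⟩, ?_⟩
  · refine ContinuousOn.div (by fun_prop) (by fun_prop) ?_
    rintro ⟨r, t⟩ ⟨_, ht⟩
    have : (0 : ℝ) ≤ t := ht
    simp only
    positivity
  · intro s _
    simp
  · intro s hs a _ b _ hab
    have : (0 : ℝ) < 1 + s := by linarith
    exact div_lt_div_of_pos_right hab this
  · intro r hr a ha b _ hab
    have : (0 : ℝ) ≤ a := ha
    exact div_lt_div_of_pos_left hr (by linarith) (by linarith)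
  · intro r _
    exact tendsto_const_nhds.div_atTop (tendsto_atTop_add_const_left _ _ tendsto_id)
  · intro r hr t ht
    have h1 : (0 : ℝ) < 1 + t := by linarith
    rw [one_mul, div_eq_mul_inv, Real.exp_neg]
    refine mul_le_mul_of_nonneg_left ?_ hr.1
    refine inv_anti₀ h1 ?_
    have := Real.add_one_le_exp t
    linarith

/-- Let `ζ` be a `KL`-function with `ζ(r,t) ≥ r e^{-lt}` for `0 ≤ r ≤ 1`, `t ≥ 0`, for some
`l > 0`, and let `L > 0`.  There are a bounded Lipschitz function `g` and `B` such that the system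
`x' = g(x) + u`, `u(t) ∈ [-B,B]`, is stabilizable for `ζ`, `Γ = [-1,1]` and `Λ = {0}`, its
practical stabilization entropy is `0`, and its stabilization entropy is at least `L`. -/
theorem result (ζ : ℝ → ℝ → ℝ) (hζ : IsKL ζ) (l : ℝ) (hl : 0 < l)
    (hslow : ∀ r ∈ Set.Icc (0 : ℝ) 1, ∀ t, 0 ≤ t → r * Real.exp (-(l * t)) ≤ ζ r t)
    (L : ℝ) (hL : 0 < L) :
    ∃ (g : ℝ → ℝ) (K : NNReal) (B : ℝ) (φ : ℝ → ℝ → (ℝ → ℝ) → ℝ),
      LipschitzWith K g ∧ (∀ x, |g x| ≤ B) ∧
      IsSolutionMap (fun x u => g x + u) (Set.Icc (-B) B) φ ∧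
      Stabilizable (Set.Icc (-B) B) φ ζ (Set.Icc (-1) 1) {0} ∧
      Tendsto (hps (Set.Icc (-B) B) φ ζ (Set.Icc (-1) 1) {0}) (𝓝[>] 0) (𝓝 0) ∧
      ∃ h : EReal, (L : EReal) ≤ h ∧
        Tendsto (hs (Set.Icc (-B) B) φ ζ (Set.Icc (-1) 1) {0}) (𝓝[>] 0) (𝓝 h) := by
  obtain ⟨P⟩ := exists_params L hζ
  obtain ⟨h, hh⟩ := exists_tendsto_hs (U := Set.Icc (-(2 * l + L)) (2 * l + L))
    (φ := phi P.drift) (Γ := Set.Icc (-1) 1) (Λ := {0}) hζ
  refine ⟨P.drift, L.toNNReal, 2 * l + L, phi P.drift, (P.lip_drift hL).lipschitzWith,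
    fun x => (P.bound_drift hL x).trans (by linarith),
    isSolutionMap_phi (P.lip_drift hL) (P.bound_drift hL), P.stabilizable hL hl hslow, ?_,
    h, ?_, hh⟩
  · refine tendsto_const_nhds.congr' ?_
    filter_upwards [self_mem_nhdsWithin] with ε hε
    exact (P.hps_eq_zero hL hl hζ hslow hε).symm
  · refine ge_of_tendsto hh ?_
    filter_upwards [Ioc_mem_nhdsGT (zero_lt_one (α := ℝ))] with ε hε
    exact P.le_hs hL hζ hε.1 hε.2

end Pool.Agent.Results.MP_395e41_an.EntropyGap
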